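import Mathlib
import Pool.Agent.H97.Irr

open Set Filter Topology Pool.Agent.H97.Irr

namespace Pool.Agent.Results.MP_515085_an.Exists

variable {𝕜 : Type} [RCLike 𝕜]

theorem exists_ab (𝕜 : Type) [RCLike 𝕜] : ∃ a b : ℕ → 𝕜, (∀ l, ‖(a l, b l)‖ = 1) ∧
    ∀ u : 𝕜 × 𝕜, ∀ ε > 0, ∃ᶠ l in atTop, ‖a l * u.1 + b l * u.2‖ < ε := by
  have : Nonempty (Metric.sphere (0 : 𝕜 × 𝕜) 1) := ⟨⟨(1, 0), by simp⟩⟩
  set d := TopologicalSpace.denseSeq (Metric.sphere (0 : 𝕜 × 𝕜) 1)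
  refine ⟨fun l => (d l.unpair.1).1.1, fun l => (d l.unpair.1).1.2,
    fun l => by simpa using (d l.unpair.1).2, fun u ε hε => ?_⟩
  obtain ⟨v, hv⟩ : ∃ v : Metric.sphere (0 : 𝕜 × 𝕜) 1, v.1.1 * u.1 + v.1.2 * u.2 = 0 := by
    rcases eq_or_ne u 0 with rfl | h
    · exact ⟨⟨(1, 0), by simp⟩, by simp⟩
    · have h' : ‖u‖ ≠ 0 := norm_ne_zero_iff.2 h
      refine ⟨⟨(‖u‖ : 𝕜)⁻¹ • (u.2, -u.1), ?_⟩, by simp; ring⟩
      have e : ‖(u.2, -u.1)‖ = ‖u‖ := by rw [Prod.norm_mk, norm_neg, max_comm, Prod.norm_def]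
      rw [mem_sphere_zero_iff_norm, norm_smul, e]
      simp [h']
  have ho : IsOpen {v : Metric.sphere (0 : 𝕜 × 𝕜) 1 | ‖v.1.1 * u.1 + v.1.2 * u.2‖ < ε} :=
    isOpen_lt (by fun_prop) continuous_const
  obtain ⟨i, hi⟩ := (TopologicalSpace.denseRange_denseSeq _).exists_mem_open ho
    ⟨v, by simpa [hv] using hε⟩
  refine frequently_atTop.2 fun N => ⟨Nat.pair i N, Nat.right_le_pair _ _, ?_⟩
  simpa using hi

theorem result (𝕜 : Type) [RCLike 𝕜] :
    ∃ (X : Type) (_ : NormedAddCommGroup X) (_ : NormedSpace 𝕜 X) (_ : CompleteSpace X)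
      (_ : TopologicalSpace.SeparableSpace X) (T : X →L[𝕜] X),
      (∃ Y : Submodule 𝕜 X, Dense (Y : Set X) ∧ ∀ y ∈ Y, y ≠ 0 →
        (∀ ε > 0, ∃ᶠ n in atTop, ‖T^[n] y‖ < ε) ∧ ∀ R : ℝ, ∃ᶠ n in atTop, R < ‖T^[n] y‖) ∧
      ¬ ∃ S : Set X, Dense S ∧ ¬ S.Countable ∧ ∃ p q : ℕ → ℕ, (∀ n, 0 < p n) ∧ (∀ n, 0 < q n) ∧
        ∀ x ∈ S, ∀ y ∈ S, x ≠ y →
          Tendsto (fun n => ‖T^[p n] x - T^[p n] y‖) atTop (𝓝 0) ∧
          Tendsto (fun n => ‖T^[q n] x - T^[q n] y‖) atTop atTop := by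
  obtain ⟨a, b, hab, hs⟩ := exists_ab 𝕜
  have ha : ∀ l, ‖a l‖ ≤ 1 := fun l => (le_max_left _ _).trans (hab l).le
  have hb : ∀ l, ‖b l‖ ≤ 1 := fun l => (le_max_right _ _).trans (hab l).le
  set A : 𝕜 × 𝕜 →L[𝕜] W 𝕜 := (ContinuousLinearMap.toSpanSingleton 𝕜 (top a ha)).coprod
    (ContinuousLinearMap.toSpanSingleton 𝕜 (top b hb)) with hA
  have hAp : ∀ u (p : ℕ × ℕ), A u p =
      if p.2 = 0 then (γ p.1 0 : 𝕜) * (a p.1 * u.1 + b p.1 * u.2) else 0 := fun u p => by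
    show u.1 • (if p.2 = 0 then (γ p.1 0 : 𝕜) * a p.1 else 0) +
      u.2 • (if p.2 = 0 then (γ p.1 0 : 𝕜) * b p.1 else 0) = _
    split_ifs
    · simp only [smul_eq_mul]; ring
    · simp
  set T : (𝕜 × 𝕜) × W 𝕜 →L[𝕜] (𝕜 × 𝕜) × W 𝕜 :=
    (ContinuousLinearMap.inr 𝕜 _ _).comp (A.coprod (S 𝕜)) with hT
  have hTn : ∀ n (y : (𝕜 × 𝕜) × W 𝕜),
      T^[n + 1] y = (0, (S 𝕜)^[n] (A y.1) + (S 𝕜)^[n + 1] y.2) := fun n y => by
    induction n with
    | zero => rfl
    | succ n ih =>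
      rw [Function.iterate_succ_apply', ih, Function.iterate_succ_apply' (S 𝕜) (n + 1),
        Function.iterate_succ_apply' (S 𝕜) n (A _), ← map_add]
      simp [hT]
  have hle : ∀ n (y : (𝕜 × 𝕜) × W 𝕜) p,
      ‖(S 𝕜)^[n] (A y.1) p + (S 𝕜)^[n + 1] y.2 p‖ ≤ ‖T^[n + 1] y‖ := fun n y p => by
    rw [hTn]
    exact (lp.norm_apply_le_norm one_ne_zero ((S 𝕜)^[n] (A y.1) + (S 𝕜)^[n + 1] y.2) p).trans (le_max_right _ _)
  have hc : ∀ n (y : (𝕜 × 𝕜) × W 𝕜) l,
      γ l n * ‖a l * y.1.1 + b l * y.1.2‖ ≤ ‖T^[n + 1] y‖ := fun n y l => by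
    have := hle n y (l, 0 + n)
    rwa [Sn_add, Sn_lt _ _ _ _ (by omega), add_zero, hAp, if_pos rfl, ← mul_assoc,
      ← RCLike.ofReal_mul, div_mul_cancel₀ _ (γ_pos _ _).ne', zero_add, norm_mul,
      RCLike.norm_ofReal, abs_of_pos (γ_pos _ _)] at this
  have hsep : TopologicalSpace.SeparableSpace (W 𝕜) := by
    rw [← TopologicalSpace.isSeparable_univ_iff, ← (fin_dense (𝕜 := 𝕜)).closure_eq]
    exact (countable_range _).isSeparable.span.closure
  refine ⟨(𝕜 × 𝕜) × W 𝕜, inferInstance, inferInstance, inferInstance, inferInstance, T,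
    ⟨(⊤ : Submodule 𝕜 (𝕜 × 𝕜)).prod
      (Submodule.span 𝕜 (range fun p => (lp.single 1 p 1 : W 𝕜))), dense_univ.prod fin_dense,
      fun y hy h0 => ⟨fun ε hε => ?_, fun R => ?_⟩⟩, ?_⟩
  · have h1 : Tendsto (fun k : ℕ => k * k + 1) atTop atTop :=
      tendsto_atTop_mono (fun k => by simp only [id]; nlinarith) tendsto_id
    refine h1.frequently ?_
    have h3 := top_small (A y.1) (fun l => a l * y.1.1 + b l * y.1.2) (‖y.1.1‖ + ‖y.1.2‖)
      (fun l => (norm_add_le _ _).trans (add_le_add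
        (by rw [norm_mul]; exact mul_le_of_le_one_left (norm_nonneg _) (ha l))
        (by rw [norm_mul]; exact mul_le_of_le_one_left (norm_nonneg _) (hb l)))) (hAp y.1)
      (ε := ε / 3) (by positivity)
    have h4 := (tendsto_zero_iff_norm_tendsto_zero.1 (fin_small hy.2)).eventually
      (eventually_lt_nhds (show 0 < ε / 3 by positivity))
    refine ((hs y.1 (ε / 3) (by positivity)).and_eventually (h3.and h4)).mono fun k hk => ?_
    rw [hTn, Prod.norm_mk, norm_zero, max_lt_iff]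
    exact ⟨hε, (norm_add_le _ _).trans_lt (by linarith [hk.1, hk.2.1, hk.2.2])⟩
  · rcases eq_or_ne y.1 0 with h | h
    · obtain ⟨⟨l, j⟩, hp⟩ : ∃ p, y.2 p ≠ 0 := by
        by_contra! h'
        exact h0 (Prod.ext h (lp.ext (funext h')))
      have hn := norm_pos_iff.2 hp
      have h1 := γ_big l (R / ‖y.2 (l, j)‖ * γ l j)
      rw [frequently_atTop] at h1 ⊢
      intro N
      obtain ⟨m, hm, h2⟩ := h1 (j + (N + 1))
      obtain ⟨n, rfl⟩ : ∃ n, m = j + (n + 1) := ⟨m - j - 1, by omega⟩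
      refine ⟨n + 1, by omega, lt_of_lt_of_le ?_ (hle n y (l, j + (n + 1)))⟩
      rw [h, map_zero, iterate_map_zero, Sn_add]
      simp only [lp.coeFn_zero, Pi.zero_apply, zero_add, norm_mul, RCLike.norm_ofReal]
      rwa [abs_of_pos (div_pos (γ_pos _ _) (γ_pos _ _)), ← div_lt_iff₀ hn,
        lt_div_iff₀ (γ_pos _ _)]
    · obtain ⟨l, hl⟩ : ∃ l, a l * y.1.1 + b l * y.1.2 ≠ 0 := by
        by_contra! h'
        -- the functionals would all kill `y.1`
        have hn := norm_pos_iff.2 h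
        obtain ⟨k, hk⟩ := (hs (-star y.1.2, star y.1.1) (‖y.1‖ ^ 2 / (2 * ‖y.1‖))
          (by positivity)).exists
        have e1 : a k * ((‖y.1.1‖ ^ 2 + ‖y.1.2‖ ^ 2 : ℝ) : 𝕜) =
            -(a k * -star y.1.2 + b k * star y.1.1) * y.1.2 := by
          push_cast
          rw [← RCLike.mul_conj, ← RCLike.mul_conj]
          simp only [RCLike.star_def]
          linear_combination (starRingEnd 𝕜 y.1.1) * h' k
        have e2 : b k * ((‖y.1.1‖ ^ 2 + ‖y.1.2‖ ^ 2 : ℝ) : 𝕜) =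
            (a k * -star y.1.2 + b k * star y.1.1) * y.1.1 := by
          push_cast
          rw [← RCLike.mul_conj, ← RCLike.mul_conj]
          simp only [RCLike.star_def]
          linear_combination (starRingEnd 𝕜 y.1.2) * h' k
        have f1 := congrArg norm e1
        have f2 := congrArg norm e2
        rw [norm_mul, norm_mul, RCLike.norm_ofReal, abs_of_nonneg (by positivity)] at f1 f2
        rw [norm_neg] at f1
        simp only at hk
        rw [lt_div_iff₀ (by positivity)] at hk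
        have g1 := norm_fst_le y.1
        have g2 := norm_snd_le y.1
        have g3 : ‖y.1‖ ^ 2 ≤ ‖y.1.1‖ ^ 2 + ‖y.1.2‖ ^ 2 := by
          rw [Prod.norm_def]
          rcases le_total ‖y.1.1‖ ‖y.1.2‖ with g | g <;> simp [g]
        have g4 := norm_nonneg (a k * -star y.1.2 + b k * star y.1.1)
        have := hab k
        rw [Prod.norm_mk] at this
        rcases le_total ‖a k‖ ‖b k‖ with g | g
        · rw [max_eq_right g] at this
          rw [this] at f2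
          nlinarith [mul_le_mul_of_nonneg_left g1 g4]
        · rw [max_eq_left g] at this
          rw [this] at f1
          nlinarith [mul_le_mul_of_nonneg_left g2 g4]
      have hn := norm_pos_iff.2 hl
      refine (tendsto_add_atTop_nat 1).frequently
        ((γ_big l (R / ‖a l * y.1.1 + b l * y.1.2‖)).mono fun n hn' => ?_)
      exact ((div_lt_iff₀ hn).1 hn').trans_le (hc n y l)
  · rintro ⟨D, hD, -, p, q, hp, -, h⟩
    obtain ⟨x, hx, hx'⟩ := hD.exists_dist_lt 0 (show (0:ℝ) < 1 / 8 by norm_num)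
    obtain ⟨y, hy, hy'⟩ := hD.exists_dist_lt ((1, 0), 0) (show (0:ℝ) < 1 / 8 by norm_num)
    obtain ⟨z, hz, hz'⟩ := hD.exists_dist_lt ((0, 1), 0) (show (0:ℝ) < 1 / 8 by norm_num)
    simp only [dist_eq_norm, Prod.norm_def, max_lt_iff, Prod.fst_sub, Prod.snd_sub, Prod.fst_zero,
      Prod.snd_zero, zero_sub, norm_neg] at hx' hy' hz'
    have key : ∀ c d s t s' t' : 𝕜, ‖c‖ = 1 → ‖d‖ ≤ 1 → ‖1 - s‖ < 1 / 8 → ‖t‖ < 1 / 8 →
        ‖s'‖ < 1 / 8 → ‖t'‖ < 1 / 8 → 1 / 2 ≤ ‖c * (s - s') + d * (t - t')‖ := by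
      intro c d s t s' t' h1 h2 h3 h4 h5 h6
      have e : c = (c * (s - s') + d * (t - t')) + (c * (1 - s) + c * s') + (d * t' - d * t) := by
        ring
      have f : ∀ w, ‖d * w‖ ≤ ‖w‖ := fun w => by
        rw [norm_mul]; exact mul_le_of_le_one_left (norm_nonneg _) h2
      have g := norm_add₃_le (a := c * (s - s') + d * (t - t')) (b := c * (1 - s) + c * s')
        (c := d * t' - d * t)
      rw [← e, h1] at g
      have g1 := norm_add_le (c * (1 - s)) (c * s')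
      rw [norm_mul, norm_mul, h1] at g1
      linarith [norm_sub_le (d * t') (d * t), f t, f t']
    have hxy : y ≠ x := by
      rintro rfl
      have := norm_add_le (1 - y.1.1) y.1.1
      rw [sub_add_cancel, norm_one] at this
      linarith [hx'.1.1, hy'.1.1]
    have hxz : z ≠ x := by
      rintro rfl
      have := norm_add_le (1 - z.1.2) z.1.2
      rw [sub_add_cancel, norm_one] at this
      linarith [hx'.1.2, hz'.1.2]
    have h2 : (0:ℝ) < 1 / 2 := by norm_num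
    obtain ⟨n, h3, h4⟩ := (((h y hy x hx hxy).1.eventually (eventually_lt_nhds h2)).and
      ((h z hz x hx hxz).1.eventually (eventually_lt_nhds h2))).exists
    obtain ⟨m, hm⟩ := Nat.exists_eq_succ_of_ne_zero (hp n).ne'
    rw [hm, ← iterate_map_sub] at h3 h4
    have h5 : ∀ v : (𝕜 × 𝕜) × W 𝕜, ‖a m.sqrt * v.1.1 + b m.sqrt * v.1.2‖ ≤ ‖T^[m + 1] v‖ :=
      fun v => (le_mul_of_one_le_left (norm_nonneg _) (γ_ge m)).trans (hc m v _)
    have := hab m.sqrt
    rw [Prod.norm_mk] at this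
    rcases le_total ‖a m.sqrt‖ ‖b m.sqrt‖ with g | g
    · rw [max_eq_right g] at this
      have k := key _ _ _ _ _ _ this (ha m.sqrt) hz'.1.2 hz'.1.1 hx'.1.2 hx'.1.1
      rw [add_comm] at k
      exact absurd ((k.trans (h5 (z - x))).trans_lt h4) (lt_irrefl _)
    · rw [max_eq_left g] at this
      have k := key _ _ _ _ _ _ this (hb m.sqrt) hy'.1.1 hy'.1.2 hx'.1.1 hx'.1.2
      exact absurd ((k.trans (h5 (y - x))).trans_lt h3) (lt_irrefl _)

end Pool.Agent.Results.MP_515085_an.Exists
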